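/-
helper58, TH-S (MP_eb8c5c_co), module M3: a real matrix can be replaced by an integral one
with the same order pattern of all differences of rows.
-/
import Mathlib

set_option autoImplicit false

namespace Pool.Agent.Helper58.SO

open Finset

/-- For every finite set of reals there is a rational linear functional on the reals which is
positive on the positive elements of the set. -/
theorem exists_functional (S : Finset ℝ) :
    ∃ φ : ℝ →ₗ[ℚ] ℚ, ∀ s ∈ S, 0 < s → 0 < φ s := by
  classical
  let V : Submodule ℚ ℝ := Submodule.span ℚ (S : Set ℝ)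
  have : FiniteDimensional ℚ V := FiniteDimensional.span_finset ℚ S
  let b := Module.finBasis ℚ V
  let r := Module.finrank ℚ V
  have hmem : ∀ s ∈ S, s ∈ V := fun s hs => Submodule.subset_span hs
  -- the coordinates of an element of `V`
  have hrepr : ∀ v : V, (v : ℝ) = ∑ i : Fin r, ((b.repr v i : ℚ) : ℝ) * ((b i : V) : ℝ) := by
    intro v
    have h := congrArg (fun w : V => (w : ℝ)) (b.sum_repr v)
    simp only [Submodule.coe_sum, Submodule.coe_smul, Rat.smul_def] at h
    exact h.symm
  -- the open set of good approximations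
  let U : Set (Fin r → ℝ) := {β | ∀ s, ∀ hs : s ∈ S, 0 < s →
    0 < ∑ i : Fin r, ((b.repr ⟨s, hmem s hs⟩ i : ℚ) : ℝ) * β i}
  have hU : IsOpen U := by
    have hU' : U = ⋂ s : {s : ℝ // s ∈ S}, {β : Fin r → ℝ | 0 < (s : ℝ) →
        0 < ∑ i : Fin r, ((b.repr ⟨s.1, hmem s.1 s.2⟩ i : ℚ) : ℝ) * β i} := by
      ext β
      simp only [U, Set.mem_ofPred_eq, Set.mem_iInter, Subtype.forall]
    rw [hU']
    refine isOpen_iInter_of_finite fun s => ?_
    by_cases hs : 0 < (s : ℝ)
    · simp only [hs, true_imp_iff]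
      exact isOpen_lt continuous_const (by fun_prop)
    · simp only [hs, false_imp_iff, Set.ofPred_true]
      exact isOpen_univ
  have hne : (U : Set (Fin r → ℝ)).Nonempty := by
    refine ⟨fun i => ((b i : V) : ℝ), ?_⟩
    intro s hs hpos
    have := hrepr ⟨s, hmem s hs⟩
    rw [← this]
    exact hpos
  have hdense : DenseRange (fun (q : Fin r → ℚ) (i : Fin r) => ((q i : ℚ) : ℝ)) := by
    have h := DenseRange.piMap (fun _ : Fin r => Rat.denseRange_cast (𝕜 := ℝ))
    exact h
  obtain ⟨q, hq⟩ := hdense.exists_mem_open hU hne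
  -- the functional on `V`
  let φ₀ : V →ₗ[ℚ] ℚ := b.constr ℚ q
  obtain ⟨φ, hφ⟩ := LinearMap.exists_extend φ₀
  refine ⟨φ, fun s hs hpos => ?_⟩
  have h1 : φ s = φ₀ ⟨s, hmem s hs⟩ := by
    have := congrArg (fun g : V →ₗ[ℚ] ℚ => g ⟨s, hmem s hs⟩) hφ
    simpa using this
  have h2 : φ₀ ⟨s, hmem s hs⟩ = ∑ i : Fin r, b.repr ⟨s, hmem s hs⟩ i * q i := by
    simp only [φ₀, Module.Basis.constr_apply_fintype, smul_eq_mul]
    rfl
  have h3 := hq s hs hpos
  rw [h1, h2]
  have h4 : ((∑ i : Fin r, b.repr ⟨s, hmem s hs⟩ i * q i : ℚ) : ℝ) =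
      ∑ i : Fin r, ((b.repr ⟨s, hmem s hs⟩ i : ℚ) : ℝ) * ((q i : ℚ) : ℝ) := by
    push_cast
    rfl
  have h5 : (0 : ℝ) < ((∑ i : Fin r, b.repr ⟨s, hmem s hs⟩ i * q i : ℚ) : ℝ) := by
    rw [h4]; exact h3
  exact_mod_cast h5

/-- A common denominator of a finite family of rationals. -/
theorem exists_common_den {ι : Type*} [Fintype ι] (q : ι → ℚ) :
    ∃ N : ℕ, 0 < N ∧ ∀ i, ∃ m : ℤ, q i * N = m := by
  classical
  refine ⟨∏ i, (q i).den, Finset.prod_pos fun i _ => (q i).pos, fun i => ?_⟩
  obtain ⟨t, ht⟩ := Finset.dvd_prod_of_mem (fun i => (q i).den) (Finset.mem_univ i)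
  refine ⟨(q i).num * t, ?_⟩
  have h1 : q i * (q i).den = (q i).num := Rat.mul_den_eq_num (q i)
  have h2 : ((∏ i, (q i).den : ℕ) : ℚ) = (q i).den * t := by
    rw [ht]; push_cast; rfl
  rw [h2, ← mul_assoc, h1]
  push_cast
  rfl

/-- **M3.** A real matrix `y` can be replaced by an integral matrix `z` with row sums `0` and
the same order pattern of all differences of rows. -/
theorem exists_int {n d : ℕ} (y : Fin n → Fin d → ℝ) :
    ∃ z : Fin n → Fin d → ℤ,
      (∀ k j c c', y k c - y j c ≤ y k c' - y j c' ↔ z k c - z j c ≤ z k c' - z j c') ∧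
      ∀ k, ∑ c, z k c = 0 := by
  classical
  let t : Fin n × Fin n × Fin d × Fin d → ℝ := fun p =>
    (y p.1 p.2.2.2 - y p.2.1 p.2.2.2) - (y p.1 p.2.2.1 - y p.2.1 p.2.2.1)
  obtain ⟨φ, hφ⟩ := exists_functional (Finset.univ.image t)
  have key : ∀ p, 0 ≤ t p ↔ 0 ≤ φ (t p) := by
    intro p
    have hmem : ∀ p, t p ∈ Finset.univ.image t := fun p => Finset.mem_image_of_mem t (Finset.mem_univ p)
    constructor
    · intro h
      rcases h.lt_or_eq with h | h
      · exact (hφ _ (hmem p) h).le
      · rw [← h, map_zero]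
    · intro h
      by_contra hn
      push Not at hn
      have hneg : t (p.1, p.2.1, p.2.2.2, p.2.2.1) = - t p := by
        simp only [t]; ring
      have h1 := hφ _ (hmem (p.1, p.2.1, p.2.2.2, p.2.2.1)) (by rw [hneg]; linarith)
      rw [hneg, map_neg] at h1
      linarith
  let w : Fin n → Fin d → ℚ := fun k c => d * φ (y k c) - ∑ c', φ (y k c')
  obtain ⟨N, hN, hm⟩ := exists_common_den (fun p : Fin n × Fin d => w p.1 p.2)
  choose m hm using hm
  refine ⟨fun k c => m (k, c), fun k j c c' => ?_, fun k => ?_⟩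
  · have hd : 0 < (d : ℚ) := by
      have := c.pos
      exact_mod_cast this
    have hN' : (0 : ℚ) < N := by exact_mod_cast hN
    have h1 := key (k, j, c, c')
    have e1 : y k c - y j c ≤ y k c' - y j c' ↔ 0 ≤ t (k, j, c, c') := by
      simp only [t]; constructor <;> intro h <;> linarith
    rw [e1, h1]
    have e2 : φ (t (k, j, c, c')) = (φ (y k c') - φ (y j c')) - (φ (y k c) - φ (y j c)) := by
      simp only [t, map_sub]
    rw [e2]
    have e3 : m (k, c) - m (j, c) ≤ m (k, c') - m (j, c') ↔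
        ((m (k, c) - m (j, c) : ℤ) : ℚ) ≤ ((m (k, c') - m (j, c') : ℤ) : ℚ) := by
      rw [Int.cast_le]
    rw [e3]
    push_cast
    rw [← hm (k, c), ← hm (j, c), ← hm (k, c'), ← hm (j, c')]
    simp only [w]
    have e4 : (d * φ (y k c) - ∑ c', φ (y k c')) * (N : ℚ) - (d * φ (y j c) - ∑ c', φ (y j c')) * N ≤
        (d * φ (y k c') - ∑ c', φ (y k c')) * N - (d * φ (y j c') - ∑ c', φ (y j c')) * N ↔
        0 ≤ (d * N : ℚ) * ((φ (y k c') - φ (y j c')) - (φ (y k c) - φ (y j c))) := by
      constructor <;> intro h <;> linarith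
    rw [e4]
    constructor
    · intro h; positivity
    · intro h
      exact nonneg_of_mul_nonneg_right h (by positivity)
  · have h1 : ((∑ c, m (k, c) : ℤ) : ℚ) = 0 := by
      push_cast
      have : ∀ c, ((m (k, c) : ℤ) : ℚ) = w k c * N := fun c => (hm (k, c)).symm
      simp only [this, w]
      rw [← Finset.sum_mul, Finset.sum_sub_distrib, ← Finset.mul_sum]
      simp
    exact_mod_cast h1

/-- The version used for the sectors: the same maximal colours. -/
theorem exists_int_argmax {n d : ℕ} (y : Fin n → Fin d → ℝ) :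
    ∃ z : Fin n → Fin d → ℤ,
      (∀ k j c, (∀ c', y k c' - y j c' ≤ y k c - y j c) ↔ ∀ c', z k c' - z j c' ≤ z k c - z j c) ∧
      (∀ k j, (∀ c c', y k c - y j c = y k c' - y j c') ↔ z k = z j) ∧
      ∀ k, ∑ c, z k c = 0 := by
  obtain ⟨z, h1, h2⟩ := exists_int y
  refine ⟨z, fun k j c => ?_, fun k j => ?_, h2⟩
  · constructor
    · intro h c'; exact (h1 k j c' c).1 (h c')
    · intro h c'; exact (h1 k j c' c).2 (h c')
  · constructor
    · intro h
      have h3 : ∀ c c', z k c - z j c = z k c' - z j c' := fun c c' =>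
        le_antisymm ((h1 k j c c').1 (h c c').le) ((h1 k j c' c).1 (h c' c).le)
      funext c
      have h4 : ∑ c', (z k c' - z j c') = 0 := by
        rw [Finset.sum_sub_distrib, h2, h2, sub_zero]
      have h5 : ∑ c', (z k c' - z j c') = d * (z k c - z j c) := by
        rw [Finset.sum_congr rfl (fun c' _ => h3 c' c)]
        simp only [Finset.sum_const, Finset.card_univ, Fintype.card_fin, nsmul_eq_mul]
      have hd : (d : ℤ) ≠ 0 := by
        have := c.pos
        positivity
      rw [h5] at h4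
      have := (mul_eq_zero.1 h4).resolve_left hd
      linarith
    · intro h c c'
      have h3 : z k c - z j c = z k c' - z j c' := by rw [h]; simp
      exact le_antisymm ((h1 k j c c').2 h3.le) ((h1 k j c' c).2 h3.ge)

end Pool.Agent.Helper58.SO
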